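import Pool.Agent.Helper69.ST.Goals

/-!
# ST-DL: Green's inequality above a Lipschitz graph
-/

open MeasureTheory Set Complex Metric Filter
open scoped ContDiff Topology ENNReal NNReal

namespace Pool.Agent.Helper9.ST.DL

open Pool.Agent.Helper69.ST

/-- The region above the graph. -/
def U (g : ℝ → ℝ) : Set ℂ := {z | g z.re < z.im}

/-- The parametrization of the graph. -/
def gam (g : ℝ → ℝ) (s : ℝ) : ℂ := ⟨s, g s⟩

theorem isOpen_U {g : ℝ → ℝ} (hg : Continuous g) : IsOpen (U g) :=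
  isOpen_lt (hg.comp Complex.continuous_re) Complex.continuous_im

theorem fub {g : ℝ → ℝ} (hg : Continuous g) {F : ℂ → ℂ} (hF : Continuous F)
    (hFc : HasCompactSupport F) :
    Integrable (fun s : ℝ => ∫ t in Ioi (g s), F ⟨s, t⟩) ∧
      ∫ z in U g, F z = ∫ s : ℝ, ∫ t in Ioi (g s), F ⟨s, t⟩ := by
  have hmU : MeasurableSet (U g) := (isOpen_U hg).measurableSet
  have hi : Integrable ((U g).indicator F) :=
    (hF.integrable_of_hasCompactSupport hFc).indicator hmU
  have hp := Complex.volume_preserving_equiv_real_prod.symm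
  have hi2 : Integrable (fun p : ℝ × ℝ => (U g).indicator F ⟨p.1, p.2⟩) :=
    (hp.integrable_comp_emb (MeasurableEquiv.measurableEmbedding _)).mpr hi
  have hin : ∀ s : ℝ, ∫ t : ℝ, (U g).indicator F ⟨s, t⟩ = ∫ t in Ioi (g s), F ⟨s, t⟩ := by
    intro s
    rw [← integral_indicator measurableSet_Ioi]
    congr 1
  have h1 : ∫ z in U g, F z = ∫ p : ℝ × ℝ, (U g).indicator F ⟨p.1, p.2⟩ := by
    rw [← integral_indicator hmU]
    exact (hp.integral_comp (MeasurableEquiv.measurableEmbedding _) _).symm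
  have hi3 := hi2
  rw [Measure.volume_eq_prod] at hi3
  have h2 := hi3.integral_prod_left
  refine ⟨?_, ?_⟩
  · simpa only [hin] using h2
  · rw [h1, Measure.volume_eq_prod, integral_prod _ hi3]
    simp only [hin]

/-- The length of a connected set is at least its diameter. -/
theorem chord {g : ℝ → ℝ} (hg : Continuous g) {a b : ℝ} (hab : a ≤ b) :
    ENNReal.ofReal ‖gam g b - gam g a‖ ≤
      (Measure.hausdorffMeasure 1 : Measure ℂ) (gam g '' Icc a b) := by
  have hc : Continuous (gam g) := by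
    have : gam g = fun s : ℝ => (s : ℂ) + (g s : ℂ) * I := by
      ext s; simp only [gam]; exact Complex.mk_eq_add_mul_I s (g s)
    rw [this]; fun_prop
  set p : ℂ → ℝ := fun z => dist z (gam g a) with hp
  have hlip : LipschitzWith 1 p := LipschitzWith.dist_left _
  have hconn : IsPreconnected (p '' (gam g '' Icc a b)) :=
    (isPreconnected_Icc.image _ hc.continuousOn).image _ hlip.continuous.continuousOn
  have h0 : (0 : ℝ) ∈ p '' (gam g '' Icc a b) :=
    ⟨gam g a, ⟨a, left_mem_Icc.2 hab, rfl⟩, by simp [hp]⟩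
  have h1 : ‖gam g b - gam g a‖ ∈ p '' (gam g '' Icc a b) :=
    ⟨gam g b, ⟨b, right_mem_Icc.2 hab, rfl⟩, by simp [hp, dist_eq_norm]⟩
  have hsub := hconn.Icc_subset h0 h1
  have h2 := hlip.hausdorffMeasure_image_le (d := 1) zero_le_one (gam g '' Icc a b)
  rw [hausdorffMeasure_real] at h2
  calc ENNReal.ofReal ‖gam g b - gam g a‖ = volume (Icc (0 : ℝ) ‖gam g b - gam g a‖) := by
        rw [Real.volume_Icc, sub_zero]
    _ ≤ volume (p '' (gam g '' Icc a b)) := measure_mono hsub
    _ ≤ _ := h2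
    _ = _ := by simp

theorem mk_hasDerivAt (s t : ℝ) : HasDerivAt (fun t : ℝ => (⟨s, t⟩ : ℂ)) I t := by
  have h : (fun t : ℝ => (⟨s, t⟩ : ℂ)) = fun t : ℝ => (s : ℂ) + (t : ℂ) * I := by
    ext t; exact Complex.mk_eq_add_mul_I s t
  rw [h]
  have h1 : HasDerivAt (fun t : ℝ => (t : ℂ)) 1 t := by
    simpa using (hasDerivAt_id t).ofReal_comp
  simpa using (h1.mul_const I).const_add (s : ℂ)

theorem slice_supp {G : ℂ → ℂ} {R : ℝ} (hR : ∀ z, R ≤ ‖z‖ → G z = 0) (s : ℝ) :
    HasCompactSupport (fun t : ℝ => G ⟨s, t⟩) := by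
  apply HasCompactSupport.intro (isCompact_Icc (a := -R) (b := R))
  intro t ht
  apply hR
  rw [mem_Icc, ← abs_le, not_le] at ht
  exact ht.le.trans (Complex.abs_im_le_norm ⟨s, t⟩)

theorem slice_smooth {G : ℂ → ℂ} (hG : ContDiff ℝ ∞ G) (s : ℝ) :
    ContDiff ℝ ∞ (fun t : ℝ => G ⟨s, t⟩) := by
  have h : (fun t : ℝ => G ⟨s, t⟩) = G ∘ fun t : ℝ => (s : ℂ) + Complex.ofRealCLM t * I := by
    ext t; simp [Complex.mk_eq_add_mul_I]
  rw [h]
  apply hG.comp
  fun_prop

/-- The vertical derivative. -/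
theorem part1 {g : ℝ → ℝ} (hg : Continuous g) {G : ℂ → ℂ} (hG : ContDiff ℝ ∞ G)
    (hGc : HasCompactSupport G) :
    ∫ z in U g, fderiv ℝ G z I = - ∫ s : ℝ, G (gam g s) := by
  obtain ⟨R, hR0, hR⟩ := hGc.exists_pos_le_norm
  have hd : Continuous (fun z => fderiv ℝ G z I) :=
    (hG.continuous_fderiv (by simp)).clm_apply continuous_const
  have hdc : HasCompactSupport (fun z => fderiv ℝ G z I) := hGc.fderiv_apply ℝ I
  rw [(fub hg hd hdc).2, ← integral_neg]
  congr 1
  ext s
  have h1 := HasCompactSupport.integral_Ioi_deriv_eq ((slice_smooth hG s).of_le (by simp))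
    (slice_supp hR s) (g s)
  have h2 : deriv (fun t : ℝ => G ⟨s, t⟩) = fun t : ℝ => fderiv ℝ G ⟨s, t⟩ I := by
    ext t
    exact (((hG.differentiable (by simp)) ⟨s, t⟩).hasFDerivAt.comp_hasDerivAt t
      (mk_hasDerivAt s t)).deriv
  rw [h2] at h1
  rw [h1]
  rfl

/-- The horizontal derivative. -/
theorem part2 {g : ℝ → ℝ} {G : ℂ → ℂ} (hG : ContDiff ℝ ∞ G)
    (hGc : HasCompactSupport G) :
    HasDerivAt (fun δ : ℝ => ∫ z in U g, G (z + δ)) (∫ z in U g, fderiv ℝ G z 1) 0 := by
  obtain ⟨R, hR0, hR⟩ := hGc.exists_pos_le_norm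
  have hd : Continuous (fun z => fderiv ℝ G z 1) :=
    (hG.continuous_fderiv (by simp)).clm_apply continuous_const
  have hdc : HasCompactSupport (fun z => fderiv ℝ G z 1) := hGc.fderiv_apply ℝ 1
  obtain ⟨C, hC⟩ := hdc.exists_bound_of_continuous hd
  obtain ⟨R', hR0', hR'⟩ := hdc.exists_pos_le_norm
  have hC0 : 0 ≤ C := (norm_nonneg _).trans (hC 0)
  have key := (hasDerivAt_integral_of_dominated_loc_of_deriv_le
    (μ := (volume : Measure ℂ).restrict (U g)) (F := fun (δ : ℝ) (z : ℂ) => G (z + δ))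
    (F' := fun (δ : ℝ) (z : ℂ) => fderiv ℝ G (z + δ) 1) (x₀ := (0 : ℝ)) (s := ball 0 1)
    (bound := (closedBall (0 : ℂ) (R' + 1)).indicator fun _ => C)
    (ball_mem_nhds 0 one_pos) ?_ ?_ ?_ ?_ ?_ ?_).2
  · simpa using key
  · exact Eventually.of_forall fun δ => ((hG.continuous.comp (by fun_prop)).aestronglyMeasurable)
  · simp only [ofReal_zero, add_zero]
    exact (hG.continuous.integrable_of_hasCompactSupport hGc).integrableOn
  · exact (hd.comp (by fun_prop : Continuous fun z : ℂ => z + ((0 : ℝ) : ℂ))).aestronglyMeasurable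
  · refine Eventually.of_forall fun z δ hδ => ?_
    by_cases hz : z ∈ closedBall (0 : ℂ) (R' + 1)
    · rw [indicator_of_mem hz]; exact hC _
    · rw [indicator_of_notMem hz]
      rw [mem_closedBall, dist_zero_right, not_le] at hz
      rw [mem_ball, dist_zero_right] at hδ
      have h1 : R' ≤ ‖z + (δ : ℂ)‖ := by
        have h2 := norm_sub_le (z + (δ : ℂ)) (δ : ℂ)
        rw [add_sub_cancel_right, Complex.norm_real] at h2
        linarith
      have h3 := hR' _ h1
      rw [h3, norm_zero]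
  · exact ((integrable_indicator_iff measurableSet_closedBall).2
      (integrableOn_const (by
        exact (isCompact_closedBall (0 : ℂ) (R' + 1)).measure_lt_top.ne))).integrableOn
  · refine Eventually.of_forall fun z δ _ => ?_
    have h1 : HasDerivAt (fun δ : ℝ => z + (δ : ℂ)) 1 δ := by
      simpa using ((hasDerivAt_id δ).ofReal_comp).const_add z
    exact ((hG.differentiable (by simp)) _).hasFDerivAt.comp_hasDerivAt δ h1

/-- Translation in the horizontal direction. -/
theorem shift {g : ℝ → ℝ} (hg : Continuous g) {G : ℂ → ℂ} (hG : Continuous G)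
    (hGc : HasCompactSupport G) (δ : ℝ) :
    ∫ z in U g, G (z + δ) = ∫ s : ℝ, ∫ t in Ioi (g (s - δ)), G ⟨s, t⟩ := by
  have hc : Continuous (fun z : ℂ => G (z + δ)) := hG.comp (by fun_prop)
  have hcc : HasCompactSupport (fun z : ℂ => G (z + δ)) :=
    hGc.comp_homeomorph (Homeomorph.addRight (δ : ℂ))
  rw [(fub hg hc hcc).2]
  rw [← integral_sub_right_eq_self (fun s : ℝ => ∫ t in Ioi (g s), G ((⟨s, t⟩ : ℂ) + δ)) δ]
  congr 1
  ext s
  have h : ∀ t : ℝ, ((⟨s - δ, t⟩ : ℂ) + δ) = ⟨s, t⟩ := by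
    intro t; apply Complex.ext <;> simp
  simp only [h]

theorem gam_cont {g : ℝ → ℝ} (hg : Continuous g) : Continuous (gam g) := by
  have : gam g = fun s : ℝ => (s : ℂ) + (g s : ℂ) * I := by
    ext s; simp only [gam]; exact Complex.mk_eq_add_mul_I s (g s)
  rw [this]; fun_prop

theorem part3 {g : ℝ → ℝ} {L : ℝ≥0} (hg : LipschitzWith L g) {G : ℂ → ℂ}
    (hG : ContDiff ℝ ∞ G) (hGc : HasCompactSupport G) {R : ℝ} (hR0 : 0 < R)
    (hR : ∀ z, R ≤ ‖z‖ → G z = 0) {δ ε : ℝ} (hδ : 0 < δ) (hε : 0 ≤ ε)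
    (hu : ∀ z w : ℂ, dist z w ≤ L * δ → ‖G z - G w‖ ≤ ε) :
    ‖(∫ z in U g, G (z + δ)) - (∫ z in U g, G (z + (0 : ℝ))) -
      ∫ s : ℝ, ((g s - g (s - δ) : ℝ) : ℂ) * G (gam g s)‖ ≤ 2 * R * (L * δ * ε) := by
  have hgc := hg.continuous
  have hGn := hG.continuous
  rw [shift hgc hGn hGc δ, shift hgc hGn hGc 0]
  simp only [sub_zero]
  have hi1 := (fub (g := fun s => g (s - δ)) (hgc.comp (by fun_prop)) hGn hGc).1
  have hi2 := (fub hgc hGn hGc).1
  have hGz : ∀ s : ℝ, s ∉ Icc (-R) R → ∀ t : ℝ, G ⟨s, t⟩ = 0 := by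
    intro s hs t
    apply hR
    rw [mem_Icc, ← abs_le, not_le] at hs
    exact hs.le.trans (Complex.abs_re_le_norm ⟨s, t⟩)
  have hcn : Continuous fun s : ℝ => ((g s - g (s - δ) : ℝ) : ℂ) * G (gam g s) := by
    have h1 := gam_cont hgc
    fun_prop
  have hi3 : Integrable fun s : ℝ => ((g s - g (s - δ) : ℝ) : ℂ) * G (gam g s) := by
    apply hcn.integrable_of_hasCompactSupport
    apply HasCompactSupport.intro (isCompact_Icc (a := -R) (b := R))
    intro s hs
    rw [gam, hGz s hs, mul_zero]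
  have hi12 : Integrable (fun s : ℝ => (∫ t in Ioi (g (s - δ)), G ⟨s, t⟩) -
      ∫ t in Ioi (g s), G ⟨s, t⟩) := hi1.sub hi2
  rw [← integral_sub hi1 hi2, ← integral_sub hi12 hi3]
  have hbd : ∀ s : ℝ, ‖(∫ t in Ioi (g (s - δ)), G ⟨s, t⟩) - (∫ t in Ioi (g s), G ⟨s, t⟩) -
      ((g s - g (s - δ) : ℝ) : ℂ) * G (gam g s)‖ ≤
      (Icc (-R) R).indicator (fun _ => (L : ℝ) * δ * ε) s := by
    intro s
    by_cases hs : s ∈ Icc (-R) R
    · rw [indicator_of_mem hs]
      have hI : Integrable (fun t : ℝ => G ⟨s, t⟩) :=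
        (slice_smooth hG s).continuous.integrable_of_hasCompactSupport (slice_supp hR s)
      rw [intervalIntegral.integral_Ioi_sub_Ioi' hI.integrableOn hI.integrableOn]
      have h1 : ((g s - g (s - δ) : ℝ) : ℂ) * G (gam g s) =
          ∫ _ in g (s - δ)..g s, G (gam g s) := by
        rw [intervalIntegral.integral_const, Complex.real_smul]
      rw [h1, ← intervalIntegral.integral_sub hI.intervalIntegrable
        intervalIntegrable_const]
      have hlip : |g s - g (s - δ)| ≤ L * δ := by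
        have := hg.dist_le_mul s (s - δ)
        rw [Real.dist_eq, Real.dist_eq, sub_sub_cancel, abs_of_pos hδ] at this
        exact this
      have h2 : ∀ t ∈ uIoc (g (s - δ)) (g s), ‖G ⟨s, t⟩ - G (gam g s)‖ ≤ ε := by
        intro t ht
        apply hu
        have h3 : dist (⟨s, t⟩ : ℂ) (gam g s) = |t - g s| := by
          rw [gam, dist_eq_norm]
          have : (⟨s, t⟩ : ℂ) - ⟨s, g s⟩ = ((t - g s : ℝ) : ℂ) * I := by
            apply Complex.ext <;> simp
          rw [this, norm_mul, Complex.norm_I, mul_one, Complex.norm_real, Real.norm_eq_abs]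
        rw [h3]
        refine le_trans ?_ hlip
        rw [abs_sub_comm t (g s)]
        rcases le_total (g (s - δ)) (g s) with h | h
        · rw [uIoc_of_le h, mem_Ioc] at ht
          rw [abs_of_nonneg (by linarith [ht.2]), abs_of_nonneg (by linarith)]
          linarith [ht.1]
        · rw [uIoc_of_ge h, mem_Ioc] at ht
          rw [abs_of_nonpos (by linarith [ht.1]), abs_of_nonpos (by linarith)]
          linarith [ht.2]
      calc _ ≤ ε * |g s - g (s - δ)| := intervalIntegral.norm_integral_le_of_norm_le_const h2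
        _ ≤ ε * (L * δ) := mul_le_mul_of_nonneg_left hlip hε
        _ = _ := by ring
    · rw [indicator_of_notMem hs]
      have h0 : G (gam g s) = 0 := hGz s hs _
      simp only [hGz s hs, h0, integral_zero, mul_zero, sub_zero, norm_zero, le_refl]
  have hind : Integrable ((Icc (-R) R).indicator (fun _ => (L : ℝ) * δ * ε)) :=
    (integrable_indicator_iff measurableSet_Icc).2 (integrableOn_const (by simp))
  refine (norm_integral_le_of_norm_le hind (Eventually.of_forall hbd)).trans ?_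
  rw [integral_indicator measurableSet_Icc, setIntegral_const]
  simp only [Measure.real, Real.volume_Icc, smul_eq_mul]
  rw [ENNReal.toReal_ofReal (by linarith)]
  linarith

theorem gam_lip {g : ℝ → ℝ} {L : ℝ≥0} (hg : LipschitzWith L g) : LipschitzWith (1 + L) (gam g) := by
  apply LipschitzWith.of_dist_le_mul
  intro a b
  have h1 : gam g a - gam g b = ((a - b : ℝ) : ℂ) + ((g a - g b : ℝ) : ℂ) * I := by
    simp only [gam]; apply Complex.ext <;> simp
  rw [dist_eq_norm, h1]
  refine (norm_add_le _ _).trans ?_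
  rw [norm_mul, Complex.norm_I, mul_one, Complex.norm_real, Complex.norm_real]
  have h2 := hg.dist_le_mul a b
  rw [Real.dist_eq] at h2 ⊢
  rw [Real.norm_eq_abs, Real.norm_eq_abs]
  push_cast
  rw [Real.dist_eq] at h2
  linarith

/-- A bounded piece of the graph. -/
def Gb (g : ℝ → ℝ) (R : ℝ) : Set ℂ := gam g '' Icc (-(R + 1)) (R + 1)

theorem Gb_compact {g : ℝ → ℝ} (hg : Continuous g) (R : ℝ) : IsCompact (Gb g R) :=
  isCompact_Icc.image (gam_cont hg)

theorem Gb_fin {g : ℝ → ℝ} {L : ℝ≥0} (hg : LipschitzWith L g) (R : ℝ) :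
    (Measure.hausdorffMeasure 1 : Measure ℂ) (Gb g R) < ⊤ := by
  have h := (gam_lip hg).hausdorffMeasure_image_le (d := 1) zero_le_one (Icc (-(R + 1)) (R + 1))
  rw [hausdorffMeasure_real, ENNReal.rpow_one] at h
  refine lt_of_le_of_lt h (ENNReal.mul_lt_top (by simp) (by simp))

theorem part4 {g : ℝ → ℝ} {L : ℝ≥0} (hg : LipschitzWith L g) {G : ℂ → ℂ}
    (hG : Continuous G) {R : ℝ}
    (hR : ∀ z, R ≤ ‖z‖ → G z = 0) {δ ε : ℝ} (hδ : 0 < δ) (hδ1 : δ ≤ 1) (hε : 0 ≤ ε)
    (hu : ∀ a b : ℝ, |a - b| ≤ δ → ‖G (gam g a)‖ ≤ ‖G (gam g b)‖ + ε) :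
    ENNReal.ofReal ‖∫ s : ℝ, G (gam g s) * (((g s - g (s - δ) : ℝ) : ℂ) - δ * I)‖ ≤
      ENNReal.ofReal δ * (∫⁻ z in Gb g R, ‖G z‖ₑ ∂(Measure.hausdorffMeasure 1) +
        ENNReal.ofReal ε * (Measure.hausdorffMeasure 1 : Measure ℂ) (Gb g R)) := by
  have hgc := hg.continuous
  have hgam := gam_cont hgc
  set μ₁ : Measure ℂ := (Measure.hausdorffMeasure 1 : Measure ℂ).restrict (Gb g R) with hμ₁
  have hfin : IsFiniteMeasure μ₁ := ⟨by
    rw [hμ₁, Measure.restrict_apply_univ]; exact Gb_fin hg R⟩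
  have hS : MeasurableSet {p : ℝ × ℂ | p.2.re ∈ Icc (p.1 - δ) p.1} := by
    apply IsClosed.measurableSet
    have h1 : IsClosed {p : ℝ × ℂ | p.1 - δ ≤ p.2.re} :=
      isClosed_le (by fun_prop) (Complex.continuous_re.comp continuous_snd)
    have h2 : IsClosed {p : ℝ × ℂ | p.2.re ≤ p.1} :=
      isClosed_le (Complex.continuous_re.comp continuous_snd) continuous_fst
    exact h1.inter h2
  have hSs : ∀ s : ℝ, MeasurableSet {z : ℂ | z.re ∈ Icc (s - δ) s} := fun s =>
    measurableSet_preimage Complex.measurable_re measurableSet_Icc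
  -- pointwise estimate
  have hpt : ∀ s : ℝ, ‖G (gam g s) * (((g s - g (s - δ) : ℝ) : ℂ) - δ * I)‖ₑ ≤
      ∫⁻ z, ‖G (gam g s)‖ₑ * {z : ℂ | z.re ∈ Icc (s - δ) s}.indicator (fun _ => 1) z ∂μ₁ := by
    intro s
    rw [lintegral_const_mul _ (measurable_const.indicator (hSs s)),
      lintegral_indicator (hSs s), setLIntegral_const, one_mul, enorm_mul]
    by_cases hs : s ∈ Icc (-R) R
    · apply mul_le_mul' le_rfl
      have h1 : gam g s - gam g (s - δ) = I * (((g s - g (s - δ) : ℝ) : ℂ) - δ * I) := by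
        simp only [gam]; apply Complex.ext <;> simp
      have h2 : ‖((g s - g (s - δ) : ℝ) : ℂ) - δ * I‖ = ‖gam g s - gam g (s - δ)‖ := by
        rw [h1, norm_mul, Complex.norm_I, one_mul]
      rw [← ofReal_norm, h2]
      refine (chord hgc (by linarith : s - δ ≤ s)).trans ?_
      rw [hμ₁, Measure.restrict_apply (hSs s)]
      apply measure_mono
      rintro _ ⟨t, ht, rfl⟩
      refine ⟨ht, t, ?_, rfl⟩
      rw [mem_Icc] at ht hs ⊢
      constructor <;> linarith [ht.1, ht.2, hs.1, hs.2]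
    · have h0 : G (gam g s) = 0 := by
        apply hR
        rw [mem_Icc, ← abs_le, not_le] at hs
        exact hs.le.trans (Complex.abs_re_le_norm (gam g s))
      rw [h0, enorm_zero, zero_mul, zero_mul]
  have hmeas : AEMeasurable (Function.uncurry fun (s : ℝ) (z : ℂ) =>
      ‖G (gam g s)‖ₑ * {z : ℂ | z.re ∈ Icc (s - δ) s}.indicator (fun _ => (1 : ℝ≥0∞)) z)
      ((volume : Measure ℝ).prod μ₁) := by
    apply Measurable.aemeasurable
    have h1 : Measurable fun p : ℝ × ℂ => ‖G (gam g p.1)‖ₑ :=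
      ((hG.comp (hgam.comp continuous_fst)).enorm).measurable
    have h2 : Measurable ({p : ℝ × ℂ | p.2.re ∈ Icc (p.1 - δ) p.1}.indicator
        (fun _ => (1 : ℝ≥0∞))) := measurable_const.indicator hS
    exact h1.mul h2
  have hin : ∀ z : ℂ, ∫⁻ s : ℝ, ‖G (gam g s)‖ₑ *
      {z : ℂ | z.re ∈ Icc (s - δ) s}.indicator (fun _ => (1 : ℝ≥0∞)) z ≤
      (‖G (gam g z.re)‖ₑ + ENNReal.ofReal ε) * ENNReal.ofReal δ := by
    intro z
    have h1 : ∀ s : ℝ, ‖G (gam g s)‖ₑ *
      {z : ℂ | z.re ∈ Icc (s - δ) s}.indicator (fun _ => (1 : ℝ≥0∞)) z ≤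
      (Icc z.re (z.re + δ)).indicator (fun _ => ‖G (gam g z.re)‖ₑ + ENNReal.ofReal ε) s := by
      intro s
      by_cases hs : z.re ∈ Icc (s - δ) s
      · have hs' : s ∈ Icc z.re (z.re + δ) := by
          rw [mem_Icc] at hs ⊢
          constructor <;> linarith [hs.1, hs.2]
        rw [indicator_of_mem hs', indicator_of_mem (by exact hs), mul_one]
        rw [← ofReal_norm, ← ofReal_norm, ← ENNReal.ofReal_add (norm_nonneg _) hε]
        apply ENNReal.ofReal_le_ofReal
        apply hu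
        rw [mem_Icc] at hs
        rw [abs_le]
        constructor <;> linarith [hs.1, hs.2]
      · rw [indicator_of_notMem (by exact hs), mul_zero]
        exact zero_le
    refine (lintegral_mono h1).trans ?_
    rw [lintegral_indicator measurableSet_Icc, setLIntegral_const, Real.volume_Icc]
    rw [add_sub_cancel_left]
  calc ENNReal.ofReal ‖∫ s : ℝ, G (gam g s) * (((g s - g (s - δ) : ℝ) : ℂ) - δ * I)‖
      ≤ ∫⁻ s : ℝ, ‖G (gam g s) * (((g s - g (s - δ) : ℝ) : ℂ) - δ * I)‖ₑ := by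
        rw [ofReal_norm]; exact enorm_integral_le_lintegral_enorm _
    _ ≤ ∫⁻ s : ℝ, ∫⁻ z, ‖G (gam g s)‖ₑ *
          {z : ℂ | z.re ∈ Icc (s - δ) s}.indicator (fun _ => 1) z ∂μ₁ := lintegral_mono hpt
    _ = ∫⁻ z, (∫⁻ s : ℝ, ‖G (gam g s)‖ₑ *
          {z : ℂ | z.re ∈ Icc (s - δ) s}.indicator (fun _ => 1) z) ∂μ₁ :=
        lintegral_lintegral_swap hmeas
    _ ≤ ∫⁻ z, (‖G (gam g z.re)‖ₑ + ENNReal.ofReal ε) * ENNReal.ofReal δ ∂μ₁ :=
        lintegral_mono hin
    _ = ∫⁻ z, (‖G z‖ₑ + ENNReal.ofReal ε) * ENNReal.ofReal δ ∂μ₁ := by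
        rw [hμ₁]
        apply setLIntegral_congr_fun (Gb_compact hgc R).measurableSet
        rintro _ ⟨t, _, rfl⟩
        rfl
    _ = _ := by
        rw [lintegral_mul_const _ (by fun_prop), lintegral_add_right _ measurable_const,
          lintegral_const, hμ₁, Measure.restrict_apply_univ, mul_comm]

theorem t : S_DL := by
  intro g L hg G hG hGc
  have hgc := hg.continuous
  have hGn := hG.continuous
  have hgam := gam_cont hgc
  obtain ⟨R, hR0, hR⟩ := hGc.exists_pos_le_norm
  have hΓ : ∫ z in {z : ℂ | g z.re = z.im}, ‖G z‖ ∂(Measure.hausdorffMeasure 1) =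
      ∫ z in Gb g R, ‖G z‖ ∂(Measure.hausdorffMeasure 1) := by
    apply setIntegral_eq_of_subset_of_forall_sdiff_eq_zero
    · exact (isClosed_eq (hgc.comp Complex.continuous_re) Complex.continuous_im).measurableSet
    · rintro _ ⟨s, _, rfl⟩
      rfl
    · rintro z ⟨hz1, hz2⟩
      rw [norm_eq_zero]
      apply hR
      have hz3 : gam g z.re = z := Complex.ext rfl hz1
      have hz4 : z.re ∉ Icc (-(R + 1)) (R + 1) := fun h => hz2 ⟨z.re, h, hz3⟩
      rw [mem_Icc, ← abs_le, not_le] at hz4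
      have := Complex.abs_re_le_norm z
      linarith
  obtain ⟨C, hC⟩ := hGc.exists_bound_of_continuous hGn
  have hint : IntegrableOn (fun z => ‖G z‖) (Gb g R) (Measure.hausdorffMeasure 1) := by
    refine Measure.integrableOn_of_bounded (M := C) (Gb_fin hg R).ne
      hGn.norm.aestronglyMeasurable (Eventually.of_forall fun z => ?_)
    rw [norm_norm]; exact hC z
  set J := ∫ z in Gb g R, ‖G z‖ ∂(Measure.hausdorffMeasure 1) with hJ
  have hJ0 : 0 ≤ J := integral_nonneg fun z => norm_nonneg _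
  have hlint : ∫⁻ z in Gb g R, ‖G z‖ₑ ∂(Measure.hausdorffMeasure 1) = ENNReal.ofReal J := by
    have h1 : Integrable G ((Measure.hausdorffMeasure 1 : Measure ℂ).restrict (Gb g R)) :=
      (integrable_norm_iff hGn.aestronglyMeasurable).1 hint
    rw [hJ, ofReal_integral_norm_eq_lintegral_enorm h1]
  set M := ((Measure.hausdorffMeasure 1 : Measure ℂ) (Gb g R)).toReal with hM
  have hM0 : 0 ≤ M := ENNReal.toReal_nonneg
  have hMe : (Measure.hausdorffMeasure 1 : Measure ℂ) (Gb g R) = ENNReal.ofReal M :=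
    (ENNReal.ofReal_toReal (Gb_fin hg R).ne).symm
  have hd1 : Continuous (fun z => fderiv ℝ G z 1) :=
    (hG.continuous_fderiv (by simp)).clm_apply continuous_const
  have hdI : Continuous (fun z => fderiv ℝ G z I) :=
    (hG.continuous_fderiv (by simp)).clm_apply continuous_const
  have hi1 : IntegrableOn (fun z => fderiv ℝ G z 1) (U g) :=
    (hd1.integrable_of_hasCompactSupport (hGc.fderiv_apply ℝ 1)).integrableOn
  have hiI : IntegrableOn (fun z => fderiv ℝ G z I) (U g) :=
    (hdI.integrable_of_hasCompactSupport (hGc.fderiv_apply ℝ I)).integrableOn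
  have hA : ∫ z in {z : ℂ | g z.re < z.im}, dbar G z =
      (∫ z in U g, fderiv ℝ G z 1) + I * ∫ z in U g, fderiv ℝ G z I := by
    have h1 : ∫ z in {z : ℂ | g z.re < z.im}, dbar G z =
        ∫ z in U g, (fderiv ℝ G z 1 + I * fderiv ℝ G z I) := rfl
    rw [h1, integral_add hi1 (hiI.const_mul I), integral_const_mul]
  rw [hΓ, hA, part1 hgc hG hGc]
  set A1 := ∫ z in U g, fderiv ℝ G z 1 with hA1
  set B := ∫ s : ℝ, G (gam g s) with hB
  have hiB : Integrable fun s : ℝ => G (gam g s) := by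
    apply (hGn.comp hgam).integrable_of_hasCompactSupport
    apply HasCompactSupport.intro (isCompact_Icc (a := -R) (b := R))
    intro s hs
    apply hR
    rw [mem_Icc, ← abs_le, not_le] at hs
    exact hs.le.trans (Complex.abs_re_le_norm (gam g s))
  have hL0 : (0 : ℝ) ≤ L := L.2
  -- the estimate
  have key : ∀ ε : ℝ, 0 < ε → ‖A1 + I * -B‖ ≤ J + ε * (M + 1 + 2 * R * L) := by
    intro ε hε
    obtain ⟨η, hη, hu⟩ := Metric.uniformContinuous_iff.1
      (hGc.uniformContinuous_of_continuous hGn) ε hε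
    have hder := (hasDerivAt_iff_isLittleO.1 (part2 (g := g) hG hGc)).def hε
    obtain ⟨δ₀, hδ₀, hder⟩ := Metric.eventually_nhds_iff.1 hder
    set δ := min 1 (min (δ₀ / 2) (η / (2 * (1 + L)))) with hδd
    have hδ : 0 < δ := by
      rw [hδd]; refine lt_min one_pos (lt_min (by linarith) (by positivity))
    have hδ1 : δ ≤ 1 := min_le_left _ _
    have hδ2 : δ < δ₀ := by
      have : δ ≤ δ₀ / 2 := (min_le_right _ _).trans (min_le_left _ _)
      linarith
    have hδ3 : (1 + L) * δ < η := by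
      have h1 : δ ≤ η / (2 * (1 + L)) := (min_le_right _ _).trans (min_le_right _ _)
      have h2 : δ * (2 * (1 + L)) ≤ η := (le_div_iff₀ (by positivity)).1 h1
      nlinarith
    have hLδ : L * δ < η := by nlinarith
    have e1 := hder (y := δ) (by rw [dist_zero_right, Real.norm_eq_abs, abs_of_pos hδ]; exact hδ2)
    have e2 := part3 hg hG hGc hR0 hR hδ hε.le (fun z w hzw => by
      rw [← dist_eq_norm]; exact (hu (lt_of_le_of_lt hzw hLδ)).le)
    have e3 := part4 hg hGn hR hδ hδ1 hε.le (fun a b hab => by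
      have h1 : dist (gam g a) (gam g b) < η := by
        refine lt_of_le_of_lt ((gam_lip hg).dist_le_mul a b) (lt_of_le_of_lt ?_ hδ3)
        rw [Real.dist_eq]
        push_cast
        exact mul_le_mul_of_nonneg_left hab (by positivity)
      have h2 := (hu h1).le
      rw [dist_eq_norm] at h2
      have h3 := norm_sub_norm_le (G (gam g a)) (G (gam g b))
      linarith)
    rw [hlint, hMe, ← ENNReal.ofReal_mul hε.le, ← ENNReal.ofReal_add hJ0 (by positivity),
      ← ENNReal.ofReal_mul hδ.le, ENNReal.ofReal_le_ofReal_iff (by positivity)] at e3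
    have hcn : Continuous fun s : ℝ => ((g s - g (s - δ) : ℝ) : ℂ) * G (gam g s) := by
      fun_prop
    have hi3 : Integrable fun s : ℝ => ((g s - g (s - δ) : ℝ) : ℂ) * G (gam g s) := by
      apply hcn.integrable_of_hasCompactSupport
      apply HasCompactSupport.intro (isCompact_Icc (a := -R) (b := R))
      intro s hs
      have : G (gam g s) = 0 := by
        apply hR
        rw [mem_Icc, ← abs_le, not_le] at hs
        exact hs.le.trans (Complex.abs_re_le_norm (gam g s))
      rw [this, mul_zero]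
    have hQ : ∫ s : ℝ, G (gam g s) * (((g s - g (s - δ) : ℝ) : ℂ) - δ * I) =
        (∫ s : ℝ, ((g s - g (s - δ) : ℝ) : ℂ) * G (gam g s)) - δ * I * B := by
      rw [hB, ← integral_const_mul, ← integral_sub hi3 (hiB.const_mul _)]
      congr 1
      ext s
      ring
    rw [hQ] at e3
    set D := ∫ s : ℝ, ((g s - g (s - δ) : ℝ) : ℂ) * G (gam g s) with hD
    set F1 := ∫ z in U g, G (z + δ) with hF1
    set F0 := ∫ z in U g, G (z + (0 : ℝ)) with hF0
    have e1' : ‖F1 - F0 - δ * A1‖ ≤ ε * δ := by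
      have h1 := e1
      simp only [sub_zero, Complex.real_smul, Real.norm_eq_abs, abs_of_pos hδ] at h1
      exact h1
    have h4 : (δ : ℂ) * (A1 + I * -B) = -(F1 - F0 - δ * A1) + (F1 - F0 - D) +
        (D - δ * I * B) := by ring
    have h5 : δ * ‖A1 + I * -B‖ ≤ δ * (J + ε * (M + 1 + 2 * R * L)) := by
      have h6 : δ * ‖A1 + I * -B‖ = ‖(δ : ℂ) * (A1 + I * -B)‖ := by
        rw [norm_mul, Complex.norm_real, Real.norm_eq_abs, abs_of_pos hδ]
      rw [h6, h4]
      refine (norm_add_le _ _).trans ?_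
      have h7 := norm_add_le (-(F1 - F0 - δ * A1)) (F1 - F0 - D)
      rw [norm_neg] at h7
      calc _ ≤ (ε * δ + 2 * R * (L * δ * ε)) + δ * (J + ε * M) := by
            have := e2; have := e3; linarith
        _ = _ := by ring
    exact le_of_mul_le_mul_left h5 hδ
  have hK : 0 < M + 1 + 2 * R * L := by positivity
  apply le_of_forall_pos_le_add
  intro ε hε
  have h := key (ε / (M + 1 + 2 * R * L)) (by positivity)
  rwa [div_mul_cancel₀ _ hK.ne'] at h

end Pool.Agent.Helper9.ST.DL
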